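import Pool.Agent.Q44.Appr
import Pool.Agent.Results.MP_f2148a_nt.AlmostAllK
import Pool.Agent.Results.MP_f2148a_nt.SparseViolations

set_option autoImplicit false

/-! # Hall's conjecture for the integers `k` given by the continued fractions of almost all real numbers

For almost every real number `α` and all integers `(u, v) ≠ (0, 0)` Mordell's equations `y² = x³ ± n` have no
integral solution at all with `|x| ≤ exp (n ^ (1 / 10000))` for all the numbers `n = |u p + v q|`, `p / q` a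
convergent of the continued fraction of `α`, apart from finitely many convergents; the exceptional set of `α`
has Hausdorff dimension at most `199 / 200`.  The same for approximations of other qualities and of points of
`ℝ ^ d`, and for the values of polynomials at the denominator and the numerators.  For Hall's inequality at the
points with `|x| ≤ n ^ A`, `2 ≤ A < 10 / 3`, the exponent `99 / 100` of the exceptions can be replaced by
`A / 4 + 1 / 6`, and the constant in Hall's inequality is as small as we please. -/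

namespace Pool.Agent.Results.MP_f2148a_nt.GoodApproximations

open Pool.Agent.Q44.CF

/-- the equations `y² = x³ ± n` have no integral solution with `|x| ≤ exp (n ^ (1 / 10000))` -/
def NoPoint (n : ℕ) : Prop :=
  ∀ k x y : ℤ, k.natAbs = n → y ^ 2 = x ^ 3 + k → Real.exp ((n : ℝ) ^ ((1 : ℝ) / 10000)) < |(x : ℝ)|

/-- all the integral solutions of `y² = x³ + k`, `k = ± n`, with `|x| ≤ n ^ A` satisfy
`c max (|x|, |y|) ≤ |k| ^ 3` -/
def Hall (A : ℝ) (c n : ℕ) : Prop :=
  ∀ k x y : ℤ, k.natAbs = n → y ^ 2 = x ^ 3 + k → |(x : ℝ)| ≤ (n : ℝ) ^ A →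
    (c : ℝ) * max |(x : ℝ)| |(y : ℝ)| ≤ |(k : ℝ)| ^ 3

section

lemma fin_abs (X : ℕ) (P : ℤ → Prop) : {k : ℤ | k ≠ 0 ∧ |(k : ℝ)| ≤ (X : ℝ) ∧ P k}.Finite := by
  refine (Set.finite_Icc (-(X : ℤ)) X).subset ?_
  rintro k ⟨-, hk, -⟩
  have h1 : |k| ≤ (X : ℤ) := by exact_mod_cast hk
  exact abs_le.1 h1

lemma abs_nat {k : ℤ} {n : ℕ} (h : k.natAbs = n) : |(k : ℝ)| = n := by
  rw [← h, Nat.cast_natAbs, Int.cast_abs]

lemma first : AtApproximations (99 / 100) NoPoint := by
  refine at_of (B := fun n => ¬ NoPoint n) (by norm_num) ?_ (fun n h => h)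
  obtain ⟨M, hM⟩ := AlmostAllK.result
  refine Pool.Agent.Q21.DW.ps_of
    (fun X : ℕ => {k : ℤ | k ≠ 0 ∧ |(k : ℝ)| ≤ (X : ℝ) ∧ ∃ x y : ℤ, y ^ 2 = x ^ 3 + k ∧
      |(x : ℝ)| ≤ Real.exp ((X : ℝ) ^ ((1 : ℝ) / 10000))}) Int.natAbs _ _ ?_ ?_
  · intro ε hε
    refine ⟨|M|, fun X hX => ⟨fin_abs X _, ?_⟩⟩
    have hX1 : (1 : ℝ) ≤ X := by exact_mod_cast hX
    refine (hM X hX1).trans ?_
    calc M * (X : ℝ) ^ ((99 : ℝ) / 100) ≤ |M| * (X : ℝ) ^ ((99 : ℝ) / 100) :=
          mul_le_mul_of_nonneg_right (le_abs_self M) (by positivity)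
      _ ≤ _ := mul_le_mul_of_nonneg_left (Real.rpow_le_rpow_of_exponent_le hX1 (by linarith))
          (abs_nonneg M)
  · intro n N hn hnN hB
    unfold NoPoint at hB
    push Not at hB
    obtain ⟨k, x, y, hk, he, hx⟩ := hB
    have h1 := abs_nat hk
    have hnN' : (n : ℝ) ≤ N := by exact_mod_cast hnN
    refine ⟨k, ⟨?_, ?_, x, y, he, ?_⟩, hk⟩
    · rintro rfl
      simp at hk
      omega
    · rw [h1]
      exact hnN'
    · refine hx.trans (Real.exp_le_exp.2 ?_)
      exact Real.rpow_le_rpow (Nat.cast_nonneg _) hnN' (by norm_num)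

lemma second (A : ℝ) (hA : 2 ≤ A) (hA' : A < 10 / 3) :
    ∀ c : ℕ, AtApproximations (A / 4 + 1 / 6) (Hall A c) := by
  intro c
  refine at_of (B := fun n => ¬ Hall A c n) (by positivity) ?_ (fun n h => h)
  rcases Nat.eq_zero_or_pos c with hc | hc
  · refine Pool.Agent.Q21.DW.ps_false fun n hn => hn ?_
    intro k x y _ _ _
    rw [hc, Nat.cast_zero, zero_mul]
    positivity
  have hc' : (0 : ℝ) < c := by exact_mod_cast hc
  refine Pool.Agent.Q21.DW.ps_of
    (fun X : ℕ => {k : ℤ | k ≠ 0 ∧ |(k : ℝ)| ≤ (X : ℝ) ∧ ∃ x y : ℤ, y ^ 2 = x ^ 3 + k ∧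
      (1 / (c : ℝ)) * |(k : ℝ)| ^ 3 < max |(x : ℝ)| |(y : ℝ)| ∧ |(x : ℝ)| ≤ (X : ℝ) ^ A})
    Int.natAbs _ _ ?_ ?_
  · intro ε hε
    obtain ⟨M, hM⟩ := SparseViolations.result (1 / c) A ε (by positivity) hA hε
    exact ⟨M, fun X hX => ⟨fin_abs X _, hM X (by exact_mod_cast hX)⟩⟩
  · intro n N hn hnN hB
    unfold Hall at hB
    push Not at hB
    obtain ⟨k, x, y, hk, he, hx, hlt⟩ := hB
    have h1 := abs_nat hk
    have hnN' : (n : ℝ) ≤ N := by exact_mod_cast hnN
    refine ⟨k, ⟨?_, ?_, x, y, he, ?_, ?_⟩, hk⟩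
    · rintro rfl
      simp at hk
      omega
    · rw [h1]
      exact hnN'
    · rw [one_div, inv_mul_lt_iff₀ hc']
      exact hlt
    · exact hx.trans (Real.rpow_le_rpow (Nat.cast_nonneg _) hnN' (by linarith))

end

/-- **Theorem.** In the sense of `AtApproximations s` (numerators and denominators of the convergents of the
continued fraction of almost all real numbers, simultaneous rational approximations of the points of `ℝ ^ d`,
Hausdorff dimensions of the exceptional sets): with `s = 99 / 100` the equations `y² = x³ ± n` have no integral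
solution with `|x| ≤ exp (n ^ (1 / 10000))`; and for `2 ≤ A < 10 / 3` and all `c`, with `s = A / 4 + 1 / 6`, all
the integral solutions of `y² = x³ + k`, `k = ± n`, with `|x| ≤ n ^ A` satisfy `c max (|x|, |y|) ≤ |k| ^ 3`. -/
theorem result :
    AtApproximations (99 / 100) NoPoint ∧
    ∀ A : ℝ, 2 ≤ A → A < 10 / 3 → ∀ c : ℕ, AtApproximations (A / 4 + 1 / 6) (Hall A c) :=
  ⟨first, second⟩

end Pool.Agent.Results.MP_f2148a_nt.GoodApproximations
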