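import Mathlib
import Pool.Agent.Q4.Hall.OptMain

set_option autoImplicit false

/-!
# Mordell's equation with ordinates at the convergents of algebraic numbers

`Y = F(q, p)` with `F ∈ ℤ[U, V]` of degree `D` divisible by `3`, at all rational approximations `p / q`
with `|ξ - p / q| ≤ q ^ (η - 2)` of an algebraic number `ξ` of degree `r ≥ 3` (for instance at all
convergents), and `X` an arbitrary integer.
-/

namespace Pool.Agent.Results.MP_f2148a_nt.OrdinatesAtConvergents

open MvPolynomial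

/-- the value `F(q, p)` -/
noncomputable def value (F : MvPolynomial (Fin 2) ℤ) (q : ℕ) (p : ℤ) : ℤ :=
  eval (fun i => if i = 0 then (q : ℤ) else p) F

/-- the value at `(1, ξ)` of the homogeneous part of degree `m` -/
noncomputable def atInfinity (ξ : ℝ) (m : ℕ) (F : MvPolynomial (Fin 2) ℤ) : ℝ :=
  aeval (fun i : Fin 2 => (if i = 0 then (1 : ℝ) else ξ)) (homogeneousComponent m F)

/-- the change of names of the variables -/
def nm : Fin 2 → Option Unit := fun i => if i = 0 then none else some ()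

lemma nm_inj : Function.Injective nm := by
  intro i j h
  fin_cases i <;> fin_cases j <;> simp_all [nm]

lemma value_eq (F : MvPolynomial (Fin 2) ℤ) (q : ℕ) (x : Unit → ℤ) :
    eval (Pool.Agent.Q4.Tube.px q x) (rename nm F) = value F q (x ()) := by
  unfold value
  rw [eval_rename]
  congr 1
  congr 1
  funext i
  fin_cases i <;> simp [nm, Pool.Agent.Q4.Tube.px]

lemma top_eq (F : MvPolynomial (Fin 2) ℤ) (m : ℕ) (θ : Unit → ℝ) :
    Pool.Agent.Q4.Cov.topv m (rename nm F) θ = atInfinity (θ ()) m F := by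
  unfold Pool.Agent.Q4.Cov.topv atInfinity
  have h1 : homogeneousComponent m (rename nm F) = rename nm (homogeneousComponent m F) := by
    have h2 : F = ∑ i ∈ Finset.range (F.totalDegree + 1), homogeneousComponent i F :=
      (sum_homogeneousComponent F).symm
    conv_lhs => rw [h2]
    rw [map_sum, map_sum]
    by_cases hm : m ∈ Finset.range (F.totalDegree + 1)
    · rw [Finset.sum_eq_single m]
      · rw [homogeneousComponent_of_mem ((homogeneousComponent_isHomogeneous m F).rename_isHomogeneous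
          (f := nm)), if_pos rfl]
      · intro i _ hi
        rw [homogeneousComponent_of_mem ((homogeneousComponent_isHomogeneous i F).rename_isHomogeneous
          (f := nm)), if_neg (Ne.symm hi)]
      · intro h
        exact absurd hm h
    · rw [Finset.sum_eq_zero, homogeneousComponent_eq_zero, map_zero]
      · rw [Finset.mem_range] at hm
        omega
      · intro i hi
        rw [homogeneousComponent_of_mem ((homogeneousComponent_isHomogeneous i F).rename_isHomogeneous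
          (f := nm)), if_neg]
        rintro rfl
        exact hm hi
  rw [h1, aeval_rename]
  congr 1
  congr 1
  funext i
  fin_cases i <;> simp [nm]

/-- an elementary inequality -/
lemma max_bound {X Y : ℤ} {e : ℝ} (he : 1 / 3 ≤ e) (hne : X ^ 3 - Y ^ 2 ≠ 0)
    (h : |(Y : ℝ)| ^ e < |((X ^ 3 - Y ^ 2 : ℤ) : ℝ)|) :
    max |X| |Y| ≤ |Y ^ 2 - X ^ 3| ^ 3 := by
  have hk : |Y ^ 2 - X ^ 3| = |X ^ 3 - Y ^ 2| := abs_sub_comm _ _
  rw [hk]
  set k := |X ^ 3 - Y ^ 2| with hkdef
  have hk1 : 1 ≤ k := Int.one_le_abs hne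
  have hk3 : k ≤ k ^ 3 := le_self_pow₀ hk1 (by norm_num)
  have hY : |Y| ≤ k ^ 3 := by
    rcases eq_or_ne Y 0 with h0 | h0
    · rw [h0, abs_zero]
      positivity
    · have h1 : (1 : ℝ) ≤ |(Y : ℝ)| := by exact_mod_cast Int.one_le_abs h0
      have h2 : |(Y : ℝ)| ^ (1 / 3 : ℝ) ≤ (k : ℝ) := by
        have h3 := (Real.rpow_le_rpow_of_exponent_le h1 he).trans h.le
        rw [hkdef, Int.cast_abs]
        exact h3
      have h4 : |(Y : ℝ)| ≤ (k : ℝ) ^ 3 := by
        have h5 := pow_le_pow_left₀ (by positivity) h2 3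
        rw [← Real.rpow_natCast, ← Real.rpow_mul (abs_nonneg _)] at h5
        norm_num at h5
        exact h5
      exact_mod_cast h4
  refine max_le ?_ hY
  by_cases hX : |X| ≤ |Y|
  · exact hX.trans hY
  · push Not at hX
    have h1 : |X| ^ 3 ≤ k + |Y| ^ 2 := by
      have h2 : X ^ 3 = (X ^ 3 - Y ^ 2) + Y ^ 2 := by ring
      rw [← abs_pow, ← abs_pow]
      conv_lhs => rw [h2]
      exact abs_add_le _ _
    have h2 : |Y| ≤ |X| - 1 := by omega
    have h3 : |Y| ^ 2 ≤ (|X| - 1) ^ 2 := pow_le_pow_left₀ (abs_nonneg _) h2 2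
    have h4 : (0 : ℤ) ≤ |Y| := abs_nonneg _
    have h5 : (1 : ℤ) ≤ |X| := by omega
    have h6 : |X| ≤ k := by nlinarith [mul_nonneg (mul_nonneg (show (0 : ℤ) ≤ |X| by omega)
      (show (0 : ℤ) ≤ |X| by omega)) (show (0 : ℤ) ≤ |X| - 1 by omega)]
    exact h6.trans hk3

/-- Let `ξ` be a real algebraic number of degree `r ≥ 3`, `F ∈ ℤ[U, V]` of degree at most `D`, where
`D > 0` is divisible by `3`, and suppose that the homogeneous part of degree `D` of `F` does not vanish
at `(1, ξ)`. For every `ε > 0` there are `η > 0` and `N` such that for all integers `q ≥ N` and `p` with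
`|ξ - p / q| ≤ q ^ (η - 2)`, all integers `X` and `k ≠ 0` with `Y² = X³ + k`, `Y = F(q, p)`:
`|k| > |Y| ^ ((1 - 2/r) (1/3 + 1/D) - ε)` and, if `3 r > 2 D + 6`, `max(|X|, |Y|) ≤ |k|³`. -/
theorem result (ξ : ℝ) (hξ : IsAlgebraic ℚ ξ) (h3 : 3 ≤ (minpoly ℚ ξ).natDegree)
    (F : MvPolynomial (Fin 2) ℤ) (D : ℕ) (hD : 0 < D) (hD3 : 3 ∣ D) (hF : F.totalDegree ≤ D)
    (htop : atInfinity ξ D F ≠ 0) (ε : ℝ) (hε : 0 < ε) :
    ∃ (η : ℝ) (N : ℕ), 0 < η ∧ ∀ q ≥ N, ∀ p : ℤ, |ξ - p / q| ≤ (q : ℝ) ^ (η - 2) → ∀ X k : ℤ,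
      k ≠ 0 → (value F q p) ^ 2 = X ^ 3 + k →
      |((value F q p : ℤ) : ℝ)|
        ^ ((1 - 2 / ((minpoly ℚ ξ).natDegree : ℝ)) * (1 / 3 + 1 / (D : ℝ)) - ε) < |(k : ℝ)| ∧
      (2 * D + 6 < 3 * (minpoly ℚ ξ).natDegree → max |X| |value F q p| ≤ |k| ^ 3) := by
  classical
  obtain ⟨m, hm⟩ := hD3
  have hm0 : 0 < m := by omega
  have hDr : (0 : ℝ) < D := by exact_mod_cast hD
  have hF' : (rename nm F).totalDegree ≤ D := (totalDegree_rename_le _ _).trans hF
  set r : ℝ := ((minpoly ℚ ξ).natDegree : ℝ) with hr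
  have hr3 : 3 ≤ r := by
    rw [hr]
    exact_mod_cast h3
  have key : ∀ ε : ℝ, 0 < ε → ∃ (η : ℝ) (N : ℕ), 0 < η ∧ ∀ q ≥ N, ∀ p : ℤ,
      |ξ - p / q| ≤ (q : ℝ) ^ (η - 2) → ∀ X k : ℤ, k ≠ 0 → (value F q p) ^ 2 = X ^ 3 + k →
      |((value F q p : ℤ) : ℝ)| ^ ((1 - 2 / r) * (1 / 3 + 1 / (D : ℝ)) - ε) < |(k : ℝ)| := by
    intro ε hε
    obtain ⟨η, N, hη, h⟩ := Pool.Agent.Q4.Hall.hall_mainO (fun _ => ξ) hξ h3 (F := rename nm F) hF' hD
      (by rw [top_eq]; exact htop) (a := 2) (b := 3) (E := 2 * m)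
      (by norm_num) (by norm_num) (by omega) (by omega)
      ((1 - 2 / r) * (1 / 3 + 1 / (D : ℝ)) - ε) (by
        have h1 : (D : ℝ) = 3 * m := by rw [hm]; push_cast; ring
        have h2 : ((1 - 2 / r) * (1 / 3 + 1 / (D : ℝ)) - ε) * D
            = (1 - 2 / r) * ((1 / 3 + 1 / (D : ℝ)) * D) - ε * D := by ring
        have h3' : (1 / 3 + 1 / (D : ℝ)) * D = D / 3 + 1 := by field_simp
        have h4 : ((((2 - 1) * D + 1 : ℕ) : ℝ) - ((2 * m : ℕ) : ℝ)) = D / 3 + 1 := by
          rw [h1]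
          push_cast
          rw [h1]
          ring
        rw [h2, h3', h4]
        have h5 : 0 < ε * D := by positivity
        linarith)
    refine ⟨η, max N 1, hη, fun q hq p hp X k hk heq => ?_⟩
    have hq1 : 1 ≤ q := (le_max_right _ _).trans hq
    have hqp : (0 : ℝ) < q := by exact_mod_cast hq1
    have h1 := h q ((le_max_left _ _).trans hq) (fun _ => p) (by
      have h2 : ξ * q - p = q * (ξ - p / q) := by field_simp
      have h3' : (q : ℝ) ^ (η - 2) = (q : ℝ) ^ η / q ^ 2 := by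
        rw [Real.rpow_sub hqp]
        norm_num
      rw [h3'] at hp
      change (q : ℝ) * |ξ * q - (p : ℝ)| ≤ _
      rw [h2, abs_mul, abs_of_pos hqp]
      calc (q : ℝ) * (q * |ξ - p / q|) ≤ q * (q * ((q : ℝ) ^ η / q ^ 2)) := by gcongr
        _ = (q : ℝ) ^ η := by field_simp) X (by
      rw [value_eq]
      intro h2
      apply hk
      rw [h2] at heq
      linarith)
    rw [value_eq] at h1
    have h2 : (k : ℝ) = -((X : ℝ) ^ 3 - ((value F q p : ℤ) : ℝ) ^ 2) := by
      have h3' : ((value F q p : ℤ) : ℝ) ^ 2 = (X : ℝ) ^ 3 + k := by exact_mod_cast heq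
      rw [h3']
      ring
    rw [h2, abs_neg]
    exact h1
  obtain ⟨η, N, hη, h⟩ := key ε hε
  set ε1 : ℝ := (1 - 2 / r) * (1 / 3 + 1 / (D : ℝ)) - 1 / 3 with hε1
  by_cases hb : 0 < ε1
  · obtain ⟨η', N', hη', h'⟩ := key ε1 hb
    refine ⟨min η η', max N (max N' 1), lt_min hη hη', fun q hq p hp X k hk heq => ?_⟩
    have hq1 : (1 : ℝ) ≤ q := by
      have h1 : 1 ≤ q := (le_max_right _ _).trans ((le_max_right _ _).trans hq)
      exact_mod_cast h1
    have hpe : ∀ e, min η η' ≤ e → |ξ - p / q| ≤ (q : ℝ) ^ (e - 2) := fun e he =>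
      hp.trans (Real.rpow_le_rpow_of_exponent_le hq1 (by linarith))
    refine ⟨h q ((le_max_left _ _).trans hq) p (hpe _ (min_le_left _ _)) X k hk heq, fun _ => ?_⟩
    have h1 := h' q ((le_max_left _ _).trans ((le_max_right _ _).trans hq)) p (hpe _ (min_le_right _ _))
      X k hk heq
    have e1 : (1 - 2 / r) * (1 / 3 + 1 / (D : ℝ)) - ε1 = 1 / 3 := by
      rw [hε1]
      ring
    rw [e1] at h1
    have hk' : k = (value F q p) ^ 2 - X ^ 3 := by rw [heq]; ring
    rw [hk'] at hk h1 ⊢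
    refine max_bound (e := 1 / 3) le_rfl (fun h0 => hk (by linarith)) ?_
    refine h1.trans_le (le_of_eq ?_)
    rw [← Int.cast_abs, ← Int.cast_abs, abs_sub_comm]
  · refine ⟨η, N, hη, fun q hq p hp X k hk heq => ⟨h q hq p hp X k hk heq, fun hr' => ?_⟩⟩
    exfalso
    apply hb
    have hr'' : 2 * (D : ℝ) + 6 < 3 * r := by
      rw [hr]
      exact_mod_cast hr'
    have hr0 : 0 < r := by linarith
    have h5 : ε1 = (3 * r - 2 * D - 6) / (3 * r * D) := by
      rw [hε1]
      field_simp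
      ring
    rw [h5]
    apply div_pos (by linarith) (by positivity)

end Pool.Agent.Results.MP_f2148a_nt.OrdinatesAtConvergents
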