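import Mathlib
import Pool.Agent.Q4.Hall.Main

set_option autoImplicit false

/-!
# Mordell's equation with polynomial ordinates at integral points near an irrational ray

`Y = F(q, x₁, …, xₙ)` with `F` of degree `D` divisible by `3`, at integral points near the ray spanned
by `(1, θ₁, …, θₙ)`, for algebraic numbers `θᵢ`, and `X` an arbitrary integer. Hall's inequality
`max(|X|, |Y|) ≤ |Y² - X³|³` holds for all these `(X, Y)`, even with a smaller exponent.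
-/

namespace Pool.Agent.Results.MP_f2148a_nt.OrdinatesNearRays

open MvPolynomial

/-- the point `(q, x₁, …, xₙ)`; the variable `none` is the one of `q` -/
def point {n : ℕ} (q : ℕ) (x : Fin n → ℤ) : Option (Fin n) → ℤ := fun o => o.elim (q : ℤ) x

/-- the integral points `(q, x₁, …, xₙ)` near the ray spanned by `(1, θ₁, …, θₙ)`: `q = u w` where `u`
is composed of primes of `S` and `w ≤ q ^ η`, and `|θₛ q - xₛ| ≤ q ^ η` for all `s` -/
def NearRay {n : ℕ} (S : Finset ℕ) (θ : Fin n → ℝ) (η : ℝ) (q : ℕ) (x : Fin n → ℤ) : Prop :=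
  (∃ u w : ℕ, q = u * w ∧ u.primeFactors ⊆ S ∧ (w : ℝ) ≤ (q : ℝ) ^ η) ∧
  ∀ s, |θ s * q - x s| ≤ (q : ℝ) ^ η

/-- the value at `(1, θ)` of the homogeneous part of degree `m` -/
noncomputable def atInfinity {n : ℕ} (θ : Fin n → ℝ) (m : ℕ) (F : MvPolynomial (Option (Fin n)) ℤ) : ℝ :=
  aeval (fun o : Option (Fin n) => (o.elim 1 θ : ℝ)) (homogeneousComponent m F)

/-- an elementary inequality -/
lemma max_bound {X Y : ℤ} {e : ℝ} (he : 1 / 3 ≤ e) (hne : X ^ 3 - Y ^ 2 ≠ 0)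
    (h : |(Y : ℝ)| ^ e < |((X ^ 3 - Y ^ 2 : ℤ) : ℝ)|) :
    max |X| |Y| ≤ |Y ^ 2 - X ^ 3| ^ 3 := by
  have hk : |Y ^ 2 - X ^ 3| = |X ^ 3 - Y ^ 2| := abs_sub_comm _ _
  rw [hk]
  set k := |X ^ 3 - Y ^ 2| with hkdef
  have hk1 : 1 ≤ k := Int.one_le_abs hne
  have hk3 : k ≤ k ^ 3 := le_self_pow₀ hk1 (by norm_num)
  have hY : |Y| ≤ k ^ 3 := by
    rcases eq_or_ne Y 0 with h0 | h0
    · rw [h0, abs_zero]
      positivity
    · have h1 : (1 : ℝ) ≤ |(Y : ℝ)| := by exact_mod_cast Int.one_le_abs h0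
      have h2 : |(Y : ℝ)| ^ (1 / 3 : ℝ) ≤ (k : ℝ) := by
        have h3 := (Real.rpow_le_rpow_of_exponent_le h1 he).trans h.le
        rw [hkdef, Int.cast_abs]
        exact h3
      have h4 : |(Y : ℝ)| ≤ (k : ℝ) ^ 3 := by
        have h5 := pow_le_pow_left₀ (by positivity) h2 3
        rw [← Real.rpow_natCast, ← Real.rpow_mul (abs_nonneg _)] at h5
        norm_num at h5
        exact h5
      exact_mod_cast h4
  refine max_le ?_ hY
  by_cases hX : |X| ≤ |Y|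
  · exact hX.trans hY
  · push Not at hX
    have h1 : |X| ^ 3 ≤ k + |Y| ^ 2 := by
      have h2 : X ^ 3 = (X ^ 3 - Y ^ 2) + Y ^ 2 := by ring
      rw [← abs_pow, ← abs_pow]
      conv_lhs => rw [h2]
      exact abs_add_le _ _
    have h2 : |Y| ≤ |X| - 1 := by omega
    have h3 : |Y| ^ 2 ≤ (|X| - 1) ^ 2 := pow_le_pow_left₀ (abs_nonneg _) h2 2
    have h4 : (0 : ℤ) ≤ |Y| := abs_nonneg _
    have h5 : (1 : ℤ) ≤ |X| := by omega
    have h6 : |X| ≤ k := by nlinarith [mul_nonneg (mul_nonneg (show (0 : ℤ) ≤ |X| by omega)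
      (show (0 : ℤ) ≤ |X| by omega)) (show (0 : ℤ) ≤ |X| - 1 by omega)]
    exact h6.trans hk3

/-- Let `1, θ₁, …, θₙ` be real algebraic numbers, linearly independent over `ℚ`, and `S` a finite set
of primes. Let `F ∈ ℤ[X₀, …, Xₙ]` have degree at most `D`, where `D > 0` is divisible by `3`, and
suppose that the homogeneous part of degree `D` of `F` does not vanish at `(1, θ)`. For every `ε > 0`
there are `η > 0` and `N` such that for all integral points `x = (q, x₁, …, xₙ)` near the ray with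
`q ≥ N`, all integers `X` and all integers `k ≠ 0` with `Y² = X³ + k`, `Y = F(x)`:
`|k| > |Y| ^ (1/3 + 1/D - ε)` and `max(|X|, |Y|) ≤ |k|³`. -/
theorem result (n : ℕ) (θ : Fin n → ℝ) (halg : ∀ s, IsAlgebraic ℚ (θ s))
    (hind : LinearIndependent ℚ (fun o : Option (Fin n) => (o.elim 1 θ : ℝ))) (S : Finset ℕ)
    (F : MvPolynomial (Option (Fin n)) ℤ) (D : ℕ) (hD : 0 < D) (hD3 : 3 ∣ D)
    (hF : F.totalDegree ≤ D) (htop : atInfinity θ D F ≠ 0) (ε : ℝ) (hε : 0 < ε) :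
    ∃ (η : ℝ) (N : ℕ), 0 < η ∧ ∀ q ≥ N, ∀ x, NearRay S θ η q x → ∀ X k : ℤ, k ≠ 0 →
      (eval (point q x) F) ^ 2 = X ^ 3 + k →
      |((eval (point q x) F : ℤ) : ℝ)| ^ (1 / 3 + 1 / (D : ℝ) - ε) < |(k : ℝ)| ∧
      max |X| |eval (point q x) F| ≤ |k| ^ 3 := by
  classical
  have hf : ∀ x : ℕ, x.primeFactors ⊆ S → x.primeFactors ⊆ S.filter Nat.Prime := fun x hx p hp =>
    Finset.mem_filter.2 ⟨hx hp, Nat.prime_of_mem_primeFactors hp⟩
  obtain ⟨m, hm⟩ := hD3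
  have hm0 : 0 < m := by omega
  have hDr : (0 : ℝ) < D := by exact_mod_cast hD
  have key : ∀ ε : ℝ, 0 < ε → ∃ (η : ℝ) (N : ℕ), 0 < η ∧ ∀ q ≥ N, ∀ x, NearRay S θ η q x → ∀ X k : ℤ,
      k ≠ 0 → (eval (point q x) F) ^ 2 = X ^ 3 + k →
      |((eval (point q x) F : ℤ) : ℝ)| ^ (1 / 3 + 1 / (D : ℝ) - ε) < |(k : ℝ)| := by
    intro ε hε
    obtain ⟨η, N, hη, h⟩ := Pool.Agent.Q4.Hall.hall_main (S.filter Nat.Prime)
      (fun p hp => (Finset.mem_filter.1 hp).2) halg hind hF hD htop (a := 2) (b := 3) (E := 2 * m)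
      (by norm_num) (by norm_num) (by omega) (by omega) (1 / 3 + 1 / (D : ℝ) - ε) (by
        have h1 : (D : ℝ) = 3 * m := by rw [hm]; push_cast; ring
        have h2 : (1 / 3 + 1 / (D : ℝ) - ε) * D = D / 3 + 1 - ε * D := by
          field_simp
        rw [h2]
        push_cast
        have h3 : 0 < ε * D := by positivity
        rw [h1] at h3 ⊢
        linarith)
    refine ⟨η, N, hη, fun q hq x hx X k hk hX => ?_⟩
    obtain ⟨u, w, h1, h2, h3⟩ := hx.1
    have h5 : k = (eval (point q x) F) ^ 2 - X ^ 3 := by rw [hX]; ring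
    have h4 := h q hq x ⟨⟨u, w, h1, hf _ h2, h3⟩, hx.2⟩ X (by
      intro h6
      apply hk
      have h7 : (eval (point q x) F) ^ 2 = X ^ 3 := h6.symm
      rw [h5, h7, sub_self])
    have h6 : (k : ℝ) = -((X : ℝ) ^ 3 - ((eval (point q x) F : ℤ) : ℝ) ^ 2) := by
      rw [h5]
      push_cast
      ring
    rw [h6, abs_neg]
    exact h4
  obtain ⟨η, N, hη, h⟩ := key ε hε
  obtain ⟨η', N', hη', h'⟩ := key (1 / (D : ℝ)) (by positivity)
  refine ⟨min η η', max N (max N' 1), lt_min hη hη', fun q hq x hx X k hk hX => ?_⟩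
  have hq1 : (1 : ℝ) ≤ q := by
    have h1 : 1 ≤ q := (le_max_right _ _).trans ((le_max_right _ _).trans hq)
    exact_mod_cast h1
  have hx1 : ∀ e, min η η' ≤ e → NearRay S θ e q x := by
    intro e he
    obtain ⟨⟨u, w, h1, h2, h3⟩, h4⟩ := hx
    have h5 : (q : ℝ) ^ (min η η') ≤ (q : ℝ) ^ e := Real.rpow_le_rpow_of_exponent_le hq1 he
    exact ⟨⟨u, w, h1, h2, h3.trans h5⟩, fun s => (h4 s).trans h5⟩
  refine ⟨h q ((le_max_left _ _).trans hq) x (hx1 _ (min_le_left _ _)) X k hk hX, ?_⟩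
  have h1 := h' q ((le_max_left _ _).trans ((le_max_right _ _).trans hq)) x
    (hx1 _ (min_le_right _ _)) X k hk hX
  have hk' : k = (eval (point q x) F) ^ 2 - X ^ 3 := by rw [hX]; ring
  rw [hk'] at hk h1 ⊢
  refine max_bound (e := 1 / 3) le_rfl (fun h0 => hk (by linarith)) ?_
  have e1 : (1 / 3 + 1 / (D : ℝ) - 1 / (D : ℝ)) = 1 / 3 := by ring
  rw [e1] at h1
  refine h1.trans_le (le_of_eq ?_)
  rw [← Int.cast_abs, ← Int.cast_abs, abs_sub_comm]

end Pool.Agent.Results.MP_f2148a_nt.OrdinatesNearRays
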