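import Mathlib
import Pool.Agent.Q21.DW.Cnt
import Pool.Agent.Results.MP_f2148a_nt.AlmostAllK
import Pool.Agent.Results.MP_f2148a_nt.SparseViolations

set_option autoImplicit false

/-! # Hall's conjecture for the integers `k` given by the digits and the multiples of a real number

For almost every real number `α` Mordell's equations `y² = x³ ± n` have no integral solution at all with
`|x| ≤ exp (n ^ (1 / 10000))`, for ALL the numbers `n` that are written by `k` consecutive digits of `α`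
after one of the first `g ^ (κ k)` places, `κ < 1 / 100`, in every base `g`, if `k` is large.  The
exceptional set of `α` has Hausdorff dimension at most `(99 / 100 + η) / (1 + η)` if only the first `η k`
places are used.  The same for all integers `n` with `|n - α v_k| ≤ w_k`, `α` outside a set of `d`-dimensional
Hausdorff measure zero, if `∑ v_k ^ t (w_k / v_k) ^ d` converges for some `t > 99 / 100`.  For Hall's
inequality at the points with `|x| ≤ n ^ A`, `2 ≤ A < 10 / 3`, the exponent `99 / 100` can be replaced by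
`A / 4 + 1 / 6`, and the constant in Hall's inequality is as small as we please. -/

namespace Pool.Agent.Results.MP_f2148a_nt.RandomReals

/-- the equations `y² = x³ ± n` have no integral solution with `|x| ≤ exp (n ^ (1 / 10000))` -/
def NoPoint (n : ℕ) : Prop :=
  ∀ k x y : ℤ, k.natAbs = n → y ^ 2 = x ^ 3 + k → Real.exp ((n : ℝ) ^ ((1 : ℝ) / 10000)) < |(x : ℝ)|

/-- all the integral solutions of `y² = x³ + k`, `k = ± n`, with `|x| ≤ n ^ A` satisfy
`c max (|x|, |y|) ≤ |k| ^ 3` -/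
def Hall (A : ℝ) (c n : ℕ) : Prop :=
  ∀ k x y : ℤ, k.natAbs = n → y ^ 2 = x ^ 3 + k → |(x : ℝ)| ≤ (n : ℝ) ^ A →
    (c : ℝ) * max |(x : ℝ)| |(y : ℝ)| ≤ |(k : ℝ)| ^ 3

section

lemma fin_abs (X : ℕ) (P : ℤ → Prop) : {k : ℤ | k ≠ 0 ∧ |(k : ℝ)| ≤ (X : ℝ) ∧ P k}.Finite := by
  refine (Set.finite_Icc (-(X : ℤ)) X).subset ?_
  rintro k ⟨-, hk, -⟩
  have h1 : |k| ≤ (X : ℤ) := by exact_mod_cast hk
  exact abs_le.1 h1

lemma abs_nat {k : ℤ} {n : ℕ} (h : k.natAbs = n) : |(k : ℝ)| = n := by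
  rw [← h, Nat.cast_natAbs, Int.cast_abs]

lemma first : Pool.Agent.Q21.DW.RandomReals (99 / 100) (fun _ : Unit => NoPoint) := by
  refine Pool.Agent.Q21.DW.randomReals_of (B := fun _ n => ¬ NoPoint n) (by norm_num) (by norm_num)
    (fun _ => ?_) (fun _ n _ h2 => not_not.1 h2)
  obtain ⟨M, hM⟩ := AlmostAllK.result
  refine Pool.Agent.Q21.DW.ps_of
    (fun X : ℕ => {k : ℤ | k ≠ 0 ∧ |(k : ℝ)| ≤ (X : ℝ) ∧ ∃ x y : ℤ, y ^ 2 = x ^ 3 + k ∧
      |(x : ℝ)| ≤ Real.exp ((X : ℝ) ^ ((1 : ℝ) / 10000))}) Int.natAbs _ _ ?_ ?_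
  · intro ε hε
    refine ⟨|M|, fun X hX => ⟨fin_abs X _, ?_⟩⟩
    have hX1 : (1 : ℝ) ≤ X := by exact_mod_cast hX
    refine (hM X hX1).trans ?_
    calc M * (X : ℝ) ^ ((99 : ℝ) / 100) ≤ |M| * (X : ℝ) ^ ((99 : ℝ) / 100) :=
          mul_le_mul_of_nonneg_right (le_abs_self M) (by positivity)
      _ ≤ _ := mul_le_mul_of_nonneg_left (Real.rpow_le_rpow_of_exponent_le hX1 (by linarith))
          (abs_nonneg M)
  · intro n N hn hnN hB
    unfold NoPoint at hB
    push Not at hB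
    obtain ⟨k, x, y, hk, he, hx⟩ := hB
    have h1 := abs_nat hk
    have hnN' : (n : ℝ) ≤ N := by exact_mod_cast hnN
    refine ⟨k, ⟨?_, ?_, x, y, he, ?_⟩, hk⟩
    · rintro rfl
      simp at hk
      omega
    · rw [h1]
      exact hnN'
    · refine hx.trans (Real.exp_le_exp.2 ?_)
      exact Real.rpow_le_rpow (Nat.cast_nonneg _) hnN' (by norm_num)

lemma second (A : ℝ) (hA : 2 ≤ A) (hA' : A < 10 / 3) :
    Pool.Agent.Q21.DW.RandomReals (A / 4 + 1 / 6) (Hall A) := by
  refine Pool.Agent.Q21.DW.randomReals_of (B := fun c n => ¬ Hall A c n) (by positivity)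
    (by linarith) (fun c => ?_) (fun c n _ h2 => not_not.1 h2)
  rcases Nat.eq_zero_or_pos c with hc | hc
  · refine Pool.Agent.Q21.DW.ps_false fun n hn => hn ?_
    intro k x y _ _ _
    rw [hc, Nat.cast_zero, zero_mul]
    positivity
  have hc' : (0 : ℝ) < c := by exact_mod_cast hc
  refine Pool.Agent.Q21.DW.ps_of
    (fun X : ℕ => {k : ℤ | k ≠ 0 ∧ |(k : ℝ)| ≤ (X : ℝ) ∧ ∃ x y : ℤ, y ^ 2 = x ^ 3 + k ∧
      (1 / (c : ℝ)) * |(k : ℝ)| ^ 3 < max |(x : ℝ)| |(y : ℝ)| ∧ |(x : ℝ)| ≤ (X : ℝ) ^ A})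
    Int.natAbs _ _ ?_ ?_
  · intro ε hε
    obtain ⟨M, hM⟩ := SparseViolations.result (1 / c) A ε (by positivity) hA hε
    exact ⟨M, fun X hX => ⟨fin_abs X _, hM X (by exact_mod_cast hX)⟩⟩
  · intro n N hn hnN hB
    unfold Hall at hB
    push Not at hB
    obtain ⟨k, x, y, hk, he, hx, hlt⟩ := hB
    have h1 := abs_nat hk
    have hnN' : (n : ℝ) ≤ N := by exact_mod_cast hnN
    refine ⟨k, ⟨?_, ?_, x, y, he, ?_, ?_⟩, hk⟩
    · rintro rfl
      simp at hk
      omega
    · rw [h1]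
      exact hnN'
    · rw [one_div, inv_mul_lt_iff₀ hc']
      exact hlt
    · exact hx.trans (Real.rpow_le_rpow (Nat.cast_nonneg _) hnN' (by linarith))

end

/-- **Theorem.** In the sense of `RandomReals s` (digits and dilates of almost all real numbers `α`, with
Hausdorff dimensions): with `s = 99 / 100` the equations `y² = x³ ± n` have no integral solution with
`|x| ≤ exp (n ^ (1 / 10000))`; and for `2 ≤ A < 10 / 3` and all `c`, with `s = A / 4 + 1 / 6`, all the integral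
solutions of `y² = x³ + k`, `k = ± n`, with `|x| ≤ n ^ A` satisfy `c max (|x|, |y|) ≤ |k| ^ 3`. -/
theorem result :
    Pool.Agent.Q21.DW.RandomReals (99 / 100) (fun _ : Unit => NoPoint) ∧
    ∀ A : ℝ, 2 ≤ A → A < 10 / 3 → Pool.Agent.Q21.DW.RandomReals (A / 4 + 1 / 6) (Hall A) :=
  ⟨first, second⟩

end Pool.Agent.Results.MP_f2148a_nt.RandomReals
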